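import Pool.Agent.Helper565.Sym.Defs

set_option autoImplicit false

namespace Pool.Agent.Helper565.Sym



theorem amp_of_invol (G : Type) [Group G] (k : ℕ) (h : {t : G | t * t = 1}.Infinite) :
    Amp G k := by
  refine ⟨1, one_pos, fun E => ?_⟩
  obtain ⟨t, ht, htE⟩ := h.exists_notMem_finset E
  have ht1 : t * t = 1 := ht
  refine ⟨{1}, {t}, by simp, fun c => ⟨1, by simp, t, by simp, htE, ?_⟩⟩
  have e : t⁻¹ = t := inv_eq_of_mul_eq_one_left ht1
  rw [e]

end Pool.Agent.Helper565.Sym
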