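import Pool.Agent.Helper565.Sym.Defs

set_option autoImplicit false

namespace Pool.Agent.Helper565.Sym



open Classical in
theorem amp_step (G : Type) [Group G] (k K : ℕ) (c0 : G → Fin k)
    (hE : ∀ E : Finset G, ∃ Z H : Finset G, Z.card ≤ K ∧
      ∀ c : G → Fin k, ∃ z ∈ Z, ∃ h ∈ H, h ∉ E ∧ c (z * h) = c (z * h⁻¹)) (L : ℕ) :
    ∃ (Ω : Type) (_ : Fintype Ω) (_ : Nonempty Ω) (g : Ω → G) (R : Finset G),
      ∀ c : G → Fin k, L * Fintype.card Ω ≤
        K * ∑ w, (R.filter (fun h => c (g w * h) = c (g w * h⁻¹))).card := by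
  induction L with
  | zero =>
    exact ⟨Unit, inferInstance, inferInstance, fun _ => 1, ∅, fun c => by simp⟩
  | succ L ih =>
    obtain ⟨Ω, _, _, g, R, hR⟩ := ih
    obtain ⟨Z, H, hZK, hZH⟩ := hE
      ((Finset.univ ×ˢ R).image (fun p : Ω × G => g p.1 * p.2 * (g p.1)⁻¹))
    obtain ⟨z0, hz0, _⟩ := hZH c0
    set E : Finset G := (Finset.univ ×ˢ R).image (fun p : Ω × G => g p.1 * p.2 * (g p.1)⁻¹) with hEdef
    set NEW : Finset G := (Finset.univ ×ˢ (H \ E)).image
      (fun p : Ω × G => (g p.1)⁻¹ * p.2 * g p.1) with hNEW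
    have hdisj : Disjoint R NEW := by
      rw [Finset.disjoint_left]
      intro r hr hr'
      obtain ⟨⟨w, h⟩, hp, rfl⟩ := Finset.mem_image.1 hr'
      have h1 := (Finset.mem_sdiff.1 (Finset.mem_product.1 hp).2).2
      apply h1
      refine Finset.mem_image.2 ⟨(w, (g w)⁻¹ * h * g w),
        Finset.mem_product.2 ⟨Finset.mem_univ _, hr⟩, ?_⟩
      show g w * ((g w)⁻¹ * h * g w) * (g w)⁻¹ = h
      group
    refine ⟨{x // x ∈ Z} × Ω, inferInstance, ⟨⟨z0, hz0⟩, Classical.arbitrary Ω⟩,
      fun p => p.1.1 * g p.2, R ∪ NEW, fun c => ?_⟩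
    have hsplit : ∀ p : {x // x ∈ Z} × Ω,
        ((R ∪ NEW).filter (fun h => c (p.1.1 * g p.2 * h) = c (p.1.1 * g p.2 * h⁻¹))).card =
        (R.filter (fun h => c (p.1.1 * g p.2 * h) = c (p.1.1 * g p.2 * h⁻¹))).card +
        (NEW.filter (fun h => c (p.1.1 * g p.2 * h) = c (p.1.1 * g p.2 * h⁻¹))).card := by
      intro p
      rw [Finset.filter_union, Finset.card_union_of_disjoint]
      exact Finset.disjoint_filter_filter hdisj
    rw [Finset.sum_congr rfl (fun p _ => hsplit p), Finset.sum_add_distrib, mul_add]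
    have hold : Z.card * (L * Fintype.card Ω) ≤ K * ∑ p : {x // x ∈ Z} × Ω,
        (R.filter (fun h => c (p.1.1 * g p.2 * h) = c (p.1.1 * g p.2 * h⁻¹))).card := by
      rw [Fintype.sum_prod_type, Finset.mul_sum]
      have h1 : ∀ z : {x // x ∈ Z}, L * Fintype.card Ω ≤ K * ∑ w,
          (R.filter (fun h => c (z.1 * g w * h) = c (z.1 * g w * h⁻¹))).card := by
        intro z
        have h2 := hR (fun x => c (z.1 * x))
        simp only [← mul_assoc] at h2
        exact h2
      calc Z.card * (L * Fintype.card Ω) = ∑ _z : {x // x ∈ Z}, L * Fintype.card Ω := by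
            rw [Finset.sum_const, Finset.card_univ, Fintype.card_coe, smul_eq_mul]
        _ ≤ _ := Finset.sum_le_sum (fun z _ => h1 z)
    have hnew : Z.card * Fintype.card Ω ≤ K * ∑ p : {x // x ∈ Z} × Ω,
        (NEW.filter (fun h => c (p.1.1 * g p.2 * h) = c (p.1.1 * g p.2 * h⁻¹))).card := by
      have h1 : Fintype.card Ω ≤ ∑ p : {x // x ∈ Z} × Ω,
          (NEW.filter (fun h => c (p.1.1 * g p.2 * h) = c (p.1.1 * g p.2 * h⁻¹))).card := by
        rw [Fintype.sum_prod_type, Finset.sum_comm]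
        have h2 : ∀ w : Ω, 1 ≤ ∑ z : {x // x ∈ Z},
            (NEW.filter (fun h => c (z.1 * g w * h) = c (z.1 * g w * h⁻¹))).card := by
          intro w
          obtain ⟨z, hz, h, hh, hhE, hc⟩ := hZH (fun x => c (x * g w))
          have h3 : 1 ≤ (NEW.filter (fun h => c ((⟨z, hz⟩ : {x // x ∈ Z}).1 * g w * h) =
              c ((⟨z, hz⟩ : {x // x ∈ Z}).1 * g w * h⁻¹))).card := by
            rw [Nat.one_le_iff_ne_zero]
            intro h0
            rw [Finset.card_eq_zero] at h0
            have h4 : (g w)⁻¹ * h * g w ∈ NEW.filter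
                (fun h => c ((⟨z, hz⟩ : {x // x ∈ Z}).1 * g w * h) =
                  c ((⟨z, hz⟩ : {x // x ∈ Z}).1 * g w * h⁻¹)) := by
              rw [Finset.mem_filter]
              refine ⟨Finset.mem_image.2 ⟨(w, h), Finset.mem_product.2
                ⟨Finset.mem_univ _, Finset.mem_sdiff.2 ⟨hh, hhE⟩⟩, rfl⟩, ?_⟩
              show c (z * g w * ((g w)⁻¹ * h * g w)) = c (z * g w * ((g w)⁻¹ * h * g w)⁻¹)
              have h5 : z * g w * ((g w)⁻¹ * h * g w) = z * h * g w := by group
              have h6 : z * g w * ((g w)⁻¹ * h * g w)⁻¹ = z * h⁻¹ * g w := by group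
              rw [h5, h6]
              exact hc
            rw [h0] at h4
            exact absurd h4 (Finset.notMem_empty _)
          exact h3.trans (Finset.single_le_sum (f := fun z : {x // x ∈ Z} =>
            (NEW.filter (fun h => c (z.1 * g w * h) = c (z.1 * g w * h⁻¹))).card)
            (fun _ _ => Nat.zero_le _) (Finset.mem_univ (⟨z, hz⟩ : {x // x ∈ Z})))
        calc Fintype.card Ω = ∑ _w : Ω, 1 := by
              rw [Finset.sum_const, Finset.card_univ, smul_eq_mul, mul_one]
          _ ≤ _ := Finset.sum_le_sum (fun w _ => h2 w)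
      exact Nat.mul_le_mul hZK h1
    have hcard : (L + 1) * Fintype.card ({x // x ∈ Z} × Ω) =
        Z.card * (L * Fintype.card Ω) + Z.card * Fintype.card Ω := by
      rw [Fintype.card_prod, Fintype.card_coe]
      ring
    rw [hcard]
    exact Nat.add_le_add hold hnew

theorem amp_large (G : Type) [Group G] (k : ℕ) (h : Amp G k) : Large G k := by
  classical
  intro c n
  obtain ⟨K, hK, hE⟩ := h
  obtain ⟨Ω, _, _, g, R, hR⟩ := amp_step G k K c hE (K * (k * (n + 1)))
  have h1 := hR c
  have h2 : ∃ w : Ω, k * (n + 1) ≤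
      (R.filter (fun h => c (g w * h) = c (g w * h⁻¹))).card := by
    by_contra hcon
    push Not at hcon
    have h3 : ∑ w, (R.filter (fun h => c (g w * h) = c (g w * h⁻¹))).card <
        ∑ _w : Ω, k * (n + 1) :=
      Finset.sum_lt_sum_of_nonempty Finset.univ_nonempty (fun w _ => hcon w)
    rw [Finset.sum_const, Finset.card_univ, smul_eq_mul] at h3
    have h4 : K * ∑ w, (R.filter (fun h => c (g w * h) = c (g w * h⁻¹))).card <
        K * (Fintype.card Ω * (k * (n + 1))) := Nat.mul_lt_mul_of_pos_left h3 hK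
    have h5 : K * (Fintype.card Ω * (k * (n + 1))) = K * (k * (n + 1)) * Fintype.card Ω := by ring
    rw [h5] at h4
    exact absurd h1 (not_le.2 h4)
  obtain ⟨w, hw⟩ := h2
  have hne : (Finset.univ : Finset (Fin k)).Nonempty := ⟨c 1, Finset.mem_univ _⟩
  obtain ⟨a, _, ha⟩ := Finset.exists_le_card_fiber_of_mul_le_card_of_maps_to
    (s := R.filter (fun h => c (g w * h) = c (g w * h⁻¹))) (t := (Finset.univ : Finset (Fin k)))
    (f := fun h => c (g w * h)) (n := n + 1) (fun _ _ => Finset.mem_univ _) hne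
    (by rw [Finset.card_univ, Fintype.card_fin]; exact hw)
  set T := (R.filter (fun h => c (g w * h) = c (g w * h⁻¹))).filter
    (fun h => c (g w * h) = a) with hT
  have hT1 : ∀ h ∈ T, c (g w * h) = a := fun h hh => (Finset.mem_filter.1 hh).2
  have hT2 : ∀ h ∈ T, c (g w * h⁻¹) = a := by
    intro h hh
    have h3 := (Finset.mem_filter.1 (Finset.mem_filter.1 hh).1).2
    rw [← h3]
    exact hT1 h hh
  have hmono : ∀ x ∈ T.image (fun h => g w * h) ∪ T.image (fun h => g w * h⁻¹), c x = a := by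
    intro x hx
    rcases Finset.mem_union.1 hx with hx | hx
    · obtain ⟨h, hh, rfl⟩ := Finset.mem_image.1 hx
      exact hT1 h hh
    · obtain ⟨h, hh, rfl⟩ := Finset.mem_image.1 hx
      exact hT2 h hh
  refine ⟨T.image (fun h => g w * h) ∪ T.image (fun h => g w * h⁻¹), g w, ?_, ?_, ?_⟩
  · have h3 : (T.image (fun h => g w * h)).card = T.card :=
      Finset.card_image_of_injective _ (mul_right_injective (g w))
    have h4 : (T.image (fun h => g w * h)).card ≤
        (T.image (fun h => g w * h) ∪ T.image (fun h => g w * h⁻¹)).card :=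
      Finset.card_le_card Finset.subset_union_left
    omega
  · intro x hx y hy
    rw [hmono x hx, hmono y hy]
  · ext x
    rw [Set.mem_image]
    constructor
    · intro hx
      rcases Finset.mem_union.1 (Finset.mem_coe.1 hx) with hx | hx
      · obtain ⟨h, hh, rfl⟩ := Finset.mem_image.1 hx
        exact ⟨g w * h⁻¹, Finset.mem_coe.2 (Finset.mem_union_right _
          (Finset.mem_image.2 ⟨h, hh, rfl⟩)), by group⟩
      · obtain ⟨h, hh, rfl⟩ := Finset.mem_image.1 hx
        exact ⟨g w * h, Finset.mem_coe.2 (Finset.mem_union_left _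
          (Finset.mem_image.2 ⟨h, hh, rfl⟩)), by group⟩
    · rintro ⟨y, hy, rfl⟩
      rcases Finset.mem_union.1 (Finset.mem_coe.1 hy) with hy | hy
      · obtain ⟨h, hh, rfl⟩ := Finset.mem_image.1 hy
        exact Finset.mem_coe.2 (Finset.mem_union_right _
          (Finset.mem_image.2 ⟨h, hh, by group⟩))
      · obtain ⟨h, hh, rfl⟩ := Finset.mem_image.1 hy
        exact Finset.mem_coe.2 (Finset.mem_union_left _
          (Finset.mem_image.2 ⟨h, hh, by group⟩))

end Pool.Agent.Helper565.Sym
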