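import Pool.Agent.Helper565.Sym.Defs

set_option autoImplicit false

namespace Pool.Agent.Helper565.Sym



theorem amp_of_seq (G : Type) [Group G] (k : ℕ)
    (h : ∀ E : Finset G, ∃ y : ℕ → G, ∀ i j : ℕ, i < j → ∃ t : G, t ∉ E ∧ y j = y i * t * t) :
    Amp G k := by
  classical
  refine ⟨(k + 1) * (k + 1), by positivity, fun E => ?_⟩
  obtain ⟨y, hy⟩ := h E
  choose! t ht using hy
  refine ⟨((Finset.range (k + 1)) ×ˢ (Finset.range (k + 1))).image (fun p => y p.1 * t p.1 p.2),
    ((Finset.range (k + 1)) ×ˢ (Finset.range (k + 1))).image (fun p => t p.1 p.2), ?_, ?_⟩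
  · refine Finset.card_image_le.trans ?_
    rw [Finset.card_product, Finset.card_range]
  · intro c
    obtain ⟨a, b, hab, hcab⟩ := Fintype.exists_ne_map_eq_of_card_lt
      (fun i : Fin (k + 1) => c (y i)) (by simp)
    have main : ∀ i j : ℕ, i < j → j < k + 1 → c (y i) = c (y j) →
        ∃ z ∈ ((Finset.range (k + 1)) ×ˢ (Finset.range (k + 1))).image
          (fun p => y p.1 * t p.1 p.2),
        ∃ h ∈ ((Finset.range (k + 1)) ×ˢ (Finset.range (k + 1))).image (fun p => t p.1 p.2),
          h ∉ E ∧ c (z * h) = c (z * h⁻¹) := by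
      intro i j hij hj hc
      have hmem : (i, j) ∈ (Finset.range (k + 1)) ×ˢ (Finset.range (k + 1)) := by
        rw [Finset.mem_product, Finset.mem_range, Finset.mem_range]
        exact ⟨by show i < k + 1; omega, hj⟩
      refine ⟨y i * t i j, Finset.mem_image.mpr ⟨(i, j), hmem, rfl⟩, t i j,
        Finset.mem_image.mpr ⟨(i, j), hmem, rfl⟩, (ht i j hij).1, ?_⟩
      rw [← (ht i j hij).2, mul_inv_cancel_right]
      exact hc.symm
    rcases lt_or_gt_of_ne hab with hlt | hlt
    · exact main a b hlt b.2 hcab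
    · exact main b a hlt a.2 hcab.symm

end Pool.Agent.Helper565.Sym
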