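import Pool.Agent.Helper565.Sym.Defs
import Pool.Agent.Helper565.Sym.P_amp_of_seq

set_option autoImplicit false

namespace Pool.Agent.Helper565.Sym



theorem amp_of_comm (G : Type) [Group G] (k : ℕ) (D : Set G)
    (h : ∀ s : Finset G, (s : Set G) ⊆ D → {y : G | y ∈ D ∧ ∀ x ∈ s, x * y = y * x}.Infinite) :
    Amp G k := by
  classical
  refine amp_of_seq G k fun E => ?_
  obtain ⟨f, hfD, hf⟩ := exists_seq_of_forall_finset_exists (fun x => x ∈ D)
    (fun x y => x * y = y * x ∧ x⁻¹ * y ∉ E) (by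
      intro s hs
      have h1 := h s (fun x hx => hs x hx)
      have h2 := h1.sdiff ((s ×ˢ E).image (fun p : G × G => p.1 * p.2)).finite_toSet
      obtain ⟨y, ⟨hyD, hyc⟩, hy⟩ := h2.nonempty
      refine ⟨y, hyD, fun x hx => ⟨hyc x hx, fun hE => hy ?_⟩⟩
      rw [Finset.mem_coe, Finset.mem_image]
      exact ⟨(x, x⁻¹ * y), Finset.mem_product.2 ⟨hx, hE⟩, by simp⟩)
  refine ⟨fun n => f n * f n, fun i j hij => ⟨(f i)⁻¹ * f j, (hf i j hij).2, ?_⟩⟩
  have hc := (hf i j hij).1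
  have e : f i * f i * ((f i)⁻¹ * f j) * ((f i)⁻¹ * f j) = (f i * f j) * (f i)⁻¹ * f j := by
    group
  show f j * f j = _
  rw [e, hc]
  group
end Pool.Agent.Helper565.Sym
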