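import Pool.Agent.Helper565.Sym.Defs
import Pool.Agent.Helper565.Sym.P_amp_of_comm

set_option autoImplicit false

namespace Pool.Agent.Helper565.Sym



theorem amp_of_inford (G : Type) [Group G] (k : ℕ) (x : G) (hx : ¬ IsOfFinOrder x) :
    Amp G k := by
  apply amp_of_comm G k (Subgroup.zpowers x : Set G)
  intro s hs
  have h : {y : G | y ∈ (Subgroup.zpowers x : Set G) ∧ ∀ z ∈ s, z * y = y * z} =
      (Subgroup.zpowers x : Set G) := by
    ext y
    constructor
    · exact fun hy => hy.1
    · intro hy
      refine ⟨hy, fun z hz => ?_⟩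
      obtain ⟨a, ha⟩ := hs hz
      obtain ⟨b, hb⟩ := hy
      have ha' : x ^ a = z := ha
      have hb' : x ^ b = y := hb
      rw [← ha', ← hb', ← zpow_add, ← zpow_add, add_comm]
  rw [h]
  exact infinite_zpowers.mpr hx

end Pool.Agent.Helper565.Sym
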