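import Pool.Agent.Helper565.Sym.Defs
import Pool.Agent.Helper565.Sym.P_amp_of_seq

set_option autoImplicit false

namespace Pool.Agent.Helper565.Sym



theorem amp_of_odd (G : Type) [Group G] [Infinite G] (k : ℕ)
    (h : ∀ x : G, ∃ m : ℕ, Odd m ∧ x ^ m = 1) : Amp G k := by
  classical
  apply amp_of_seq
  intro E
  set F : Finset G := E.image (fun e => e * e) with hF
  obtain ⟨y, -, hy⟩ := exists_seq_of_forall_finset_exists (fun _ : G => True)
    (fun x y : G => x⁻¹ * y ∉ F) (by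
      intro s _
      obtain ⟨y, hy⟩ := Infinite.exists_notMem_finset ((s ×ˢ F).image (fun p : G × G => p.1 * p.2))
      refine ⟨y, trivial, fun x hx hmem => hy ?_⟩
      rw [Finset.mem_image]
      exact ⟨(x, x⁻¹ * y), Finset.mem_product.2 ⟨hx, hmem⟩, by simp⟩)
  refine ⟨y, fun i j hij => ?_⟩
  have h1 := hy i j hij
  obtain ⟨m, ⟨a, ha⟩, hm⟩ := h ((y i)⁻¹ * y j)
  have ht : ((y i)⁻¹ * y j) ^ (a + 1) * ((y i)⁻¹ * y j) ^ (a + 1) = (y i)⁻¹ * y j := by
    rw [← pow_add, show a + 1 + (a + 1) = m + 1 by omega, pow_succ, hm, one_mul]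
  refine ⟨((y i)⁻¹ * y j) ^ (a + 1), fun hE => h1 ?_, ?_⟩
  · rw [hF, Finset.mem_image]
    exact ⟨_, hE, ht⟩
  · rw [mul_assoc, ht, mul_inv_cancel_left]

end Pool.Agent.Helper565.Sym
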