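import Pool.Agent.Helper565.Sym.Defs

set_option autoImplicit false

namespace Pool.Agent.Helper565.Sym



theorem sec_sub (G : Type) [Group G] (H : Subgroup G) : Sec G H := by
  refine ⟨H, MonoidHom.id H, Function.surjective_id, ?_⟩
  have h : (MonoidHom.id H).ker = ⊥ := by
    rw [MonoidHom.ker_eq_bot_iff]
    exact Function.injective_id
  rw [h]
  infer_instance

end Pool.Agent.Helper565.Sym
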