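import Pool.Agent.Helper565.Sym.Defs
import Pool.Agent.Helper565.Sym.P_sec_sub

set_option autoImplicit false

namespace Pool.Agent.Helper565.Sym



theorem col_quot (G : Type) [Group G] (k : ℕ) (E : Finset G) (c : G → Fin k)
    (hc : ∀ g t : G, t ∉ E → c (g * t) ≠ c (g * t⁻¹)) (x : G) (hx : x ∉ E)
    (ho : IsOfFinOrder x) (hi : (Subgroup.centralizer {x} : Set G).Infinite) :
    2 ≤ k ∧ ∃ (K : Type) (_ : Group K), Infinite K ∧ Sec G K ∧ Col K (k - 1) := by
  classical
  have hne : ∀ g : G, c (g * x * x) ≠ c g := by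
    intro g
    have := hc (g * x) x hx
    simpa using this
  have h2k : 2 ≤ k := by
    have h1 := hne 1
    have a1 := (c (1 * x * x)).2
    have a2 := (c 1).2
    have h3 : ((c (1 * x * x) : Fin k) : ℕ) ≠ (c 1 : Fin k) := fun h => h1 (Fin.ext h)
    omega
  refine ⟨h2k, ?_⟩
  set H : Subgroup G := Subgroup.centralizer {x} with hH
  have hxH : x ∈ H := by
    rw [hH, Subgroup.mem_centralizer_singleton_iff]
  let X : H := ⟨x, hxH⟩
  have hcomm : ∀ h : H, Commute h X := by
    intro h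
    have h1 : (h : G) ∈ Subgroup.centralizer {x} := h.2
    exact Subtype.ext (Subgroup.mem_centralizer_singleton_iff.mp h1)
  let N : Subgroup H := Subgroup.zpowers (X ^ 2)
  have hNn : N.Normal := by
    refine ⟨fun n hn g => ?_⟩
    obtain ⟨i, rfl⟩ := Subgroup.mem_zpowers_iff.mp hn
    have : Commute g ((X ^ 2) ^ i) := ((hcomm g).pow_right 2).zpow_right i
    rw [this.eq, mul_inv_cancel_right]
    exact hn
  have hXo : IsOfFinOrder X := Submonoid.isOfFinOrder_coe.mp ho
  have hNf : Finite N := by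
    have : ((Subgroup.zpowers (X ^ 2) : Subgroup H) : Set H).Finite :=
      finite_zpowers.mpr hXo.pow
    exact this
  have hHi : Infinite H := hi.to_subtype
  let K : Type := H ⧸ N
  refine ⟨K, inferInstanceAs (Group (H ⧸ N)), ?_, ?_, ?_⟩
  · by_contra hfin
    rw [not_infinite_iff_finite] at hfin
    have : Finite (H ⧸ N) := hfin
    have e : H ≃ (H ⧸ N) × N := Subgroup.groupEquivQuotientProdSubgroup
    have : Finite H := Finite.of_equiv _ e.symm
    exact not_finite H
  · refine ⟨H, QuotientGroup.mk' N, QuotientGroup.mk'_surjective N, ?_⟩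
    rw [QuotientGroup.ker_mk']
    exact hNf
  · -- the colouring
    let S : H ⧸ N → Set ℕ := fun q => {n | ∃ h : H, (QuotientGroup.mk h : H ⧸ N) = q ∧ ((c h : Fin k) : ℕ) = n}
    have hSne : ∀ q, (S q).Nonempty := by
      intro q
      obtain ⟨h, rfl⟩ := QuotientGroup.mk_surjective q
      exact ⟨_, h, rfl, rfl⟩
    have hlt : ∀ q, sInf (S q) < k - 1 := by
      intro q
      obtain ⟨h, rfl⟩ := QuotientGroup.mk_surjective q
      have m1 : ((c h : Fin k) : ℕ) ∈ S (QuotientGroup.mk h) := ⟨h, rfl, rfl⟩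
      have m2 : ((c (h * x * x) : Fin k) : ℕ) ∈ S (QuotientGroup.mk h) := by
        refine ⟨h * X * X, ?_, rfl⟩
        rw [QuotientGroup.eq]
        have : (h * X * X)⁻¹ * h = (X ^ 2)⁻¹ := by
          have h1 : h * X * X = h * X ^ 2 := by rw [pow_two, mul_assoc]
          rw [h1, mul_inv_rev, mul_assoc, inv_mul_cancel, mul_one]
        rw [this]
        exact N.inv_mem (Subgroup.mem_zpowers _)
      have l1 := Nat.sInf_le m1
      have l2 := Nat.sInf_le m2
      have h1 := hne h
      have h3 : ((c ((h : G) * x * x) : Fin k) : ℕ) ≠ (c (h : G) : Fin k) := fun h => h1 (Fin.ext h)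
      have b1 := (c ((h : G) * x * x)).2
      have b2 := (c (h : G)).2
      omega
    let F : Set H := {h | ∃ e ∈ E, ∃ z ∈ Subgroup.zpowers x, (h : G) = e * z}
    have hF : F.Finite := by
      have hz : ((Subgroup.zpowers x : Subgroup G) : Set G).Finite := finite_zpowers.mpr ho
      have h1 : (Set.image2 (fun e z => e * z) (E : Set G)
          ((Subgroup.zpowers x : Subgroup G) : Set G)).Finite := Set.Finite.image2 _ E.finite_toSet hz
      refine (h1.preimage (f := (Subtype.val : H → G)) Subtype.val_injective.injOn).subset ?_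
      rintro h ⟨e, he, z, hz, hh⟩
      exact ⟨e, he, z, hz, hh.symm⟩
    have hFq : ((fun h : H => (QuotientGroup.mk h : H ⧸ N)) '' F).Finite := hF.image _
    refine ⟨hFq.toFinset, fun q => ⟨sInf (S q), hlt q⟩, ?_⟩
    intro g τ hτ heq
    have heq' : sInf (S (g * τ)) = sInf (S (g * τ⁻¹)) := congrArg Fin.val heq
    obtain ⟨g0, rfl⟩ := QuotientGroup.mk_surjective g
    obtain ⟨t, rfl⟩ := QuotientGroup.mk_surjective τ
    have hτ' : t ∉ F := by
      intro ht
      apply hτ
      rw [Set.Finite.mem_toFinset]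
      exact ⟨t, ht, rfl⟩
    obtain ⟨h1, hq1, hc1⟩ := Nat.sInf_mem (hSne ((QuotientGroup.mk g0 : H ⧸ N) * QuotientGroup.mk t))
    obtain ⟨h2, hq2, hc2⟩ := Nat.sInf_mem (hSne ((QuotientGroup.mk g0 : H ⧸ N) * (QuotientGroup.mk t)⁻¹))
    have hcc : c h1 = c h2 := by
      apply Fin.ext
      rw [hc1, hc2]
      exact heq'
    have hn1 : (g0 * t)⁻¹ * h1 ∈ N := by
      rw [← QuotientGroup.eq]
      exact hq1.symm
    have hn2 : (g0 * t⁻¹)⁻¹ * h2 ∈ N := by
      rw [← QuotientGroup.eq]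
      exact hq2.symm
    obtain ⟨i, hi1⟩ := Subgroup.mem_zpowers_iff.mp hn1
    obtain ⟨j, hj1⟩ := Subgroup.mem_zpowers_iff.mp hn2
    have eh1 : h1 = g0 * t * (X ^ 2) ^ i := by rw [hi1]; group
    have eh2 : h2 = g0 * t⁻¹ * (X ^ 2) ^ j := by rw [hj1]; group
    have hXX : ∀ n : ℤ, (X ^ 2) ^ n = X ^ (2 * n) := by
      intro n
      rw [zpow_mul]; norm_cast
    rw [hXX] at eh1 eh2
    have tc : Commute t X := hcomm t
    have ht' : ((t * X ^ (i - j) : H) : G) ∉ E := by
      intro hmem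
      apply hτ'
      refine ⟨_, hmem, x ^ (-(i - j)), Subgroup.zpow_mem _ (Subgroup.mem_zpowers x) _, ?_⟩
      have : (t : G) = ((t * X ^ (i - j) * X ^ (-(i - j)) : H) : G) := by
        rw [mul_assoc, ← zpow_add]; simp
      rw [this]
      push_cast
      rfl
    have key := hc ((g0 * X ^ (i + j) : H) : G) _ ht'
    apply key
    have a1 : (((g0 * X ^ (i + j) : H) : G) * ((t * X ^ (i - j) : H) : G)) = h1 := by
      rw [eh1, ← Subgroup.coe_mul]
      congr 1
      have : X ^ (i + j) * t = t * X ^ (i + j) := (tc.zpow_right (i + j)).eq.symm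
      calc g0 * X ^ (i + j) * (t * X ^ (i - j)) = g0 * (X ^ (i + j) * t) * X ^ (i - j) := by group
        _ = g0 * (t * X ^ (i + j)) * X ^ (i - j) := by rw [this]
        _ = g0 * t * (X ^ (i + j) * X ^ (i - j)) := by simp only [mul_assoc]
        _ = g0 * t * X ^ (2 * i) := by rw [← zpow_add]; congr 2; ring
    have a2 : (((g0 * X ^ (i + j) : H) : G) * (((t * X ^ (i - j) : H) : G))⁻¹) = h2 := by
      rw [eh2, ← Subgroup.coe_inv, ← Subgroup.coe_mul]
      congr 1
      have h3 : t⁻¹ * X ^ (2 * j) = X ^ (2 * j) * t⁻¹ := (tc.inv_left.zpow_right (2 * j)).eq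
      calc g0 * X ^ (i + j) * (t * X ^ (i - j))⁻¹ = g0 * (X ^ (i + j) * X ^ (-(i - j))) * t⁻¹ := by
            rw [mul_inv_rev, ← zpow_neg]; simp only [mul_assoc]
        _ = g0 * (X ^ (2 * j) * t⁻¹) := by
            rw [← zpow_add, mul_assoc]; congr 3; ring
        _ = g0 * (t⁻¹ * X ^ (2 * j)) := by rw [h3]
        _ = g0 * t⁻¹ * X ^ (2 * j) := by rw [mul_assoc]
    rw [a1, a2]
    exact hcc

end Pool.Agent.Helper565.Sym
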