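import Pool.Agent.Helper565.Sym.Defs

set_option autoImplicit false

namespace Pool.Agent.Helper565.Sym



theorem col_sub (G : Type) [Group G] (k : ℕ) (H : Subgroup G) (h : Col G k) : Col H k := by
  obtain ⟨E, c, hc⟩ := h
  refine ⟨E.preimage (fun x : H => (x : G)) (Subtype.val_injective.injOn), fun x => c (x : G), ?_⟩
  intro g h hh
  have h1 : (h : G) ∉ E := by
    intro h2
    exact hh (Finset.mem_preimage.2 h2)
  exact hc (g : G) (h : G) h1

end Pool.Agent.Helper565.Sym
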