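import Pool.Agent.Helper565.Sym.Defs

set_option autoImplicit false

namespace Pool.Agent.Helper565.Sym



theorem not_large_of_col (G : Type) [Group G] (k : ℕ) (h : Col G k) : ¬ Large G k := by
  classical
  obtain ⟨E, c, hE⟩ := h
  intro hL
  obtain ⟨A, g, hn, hcol, hsym⟩ := hL c (E.card + 1)
  have hsub : A ⊆ E.image (fun t => g * t) := by
    intro a ha
    have ha' : g * a⁻¹ * g ∈ A := by
      have h1 : g * a⁻¹ * g ∈ (A : Set G) := by
        rw [hsym]
        exact ⟨a, ha, rfl⟩
      exact h1
    rw [Finset.mem_image]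
    refine ⟨g⁻¹ * a, ?_, by group⟩
    by_contra ht
    apply hE g (g⁻¹ * a) ht
    have h1 : g * (g⁻¹ * a) = a := by group
    have h2 : g * (g⁻¹ * a)⁻¹ = g * a⁻¹ * g := by group
    rw [h1, h2]
    exact hcol a ha _ ha'
  have h1 := Finset.card_le_card hsub
  have h2 := Finset.card_image_le (s := E) (f := fun t => g * t)
  omega

end Pool.Agent.Helper565.Sym
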