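import Pool.Agent.Helper565.Sym.Defs

set_option autoImplicit false

namespace Pool.Agent.Helper565.Sym



theorem comm_mod_finite (K : Type) [Group K] (hz : Finite (Subgroup.center K)) (x : K)
    (hx : (Subgroup.centralizer {x} : Set K).Finite) :
    {y : K | x * y * x⁻¹ * y⁻¹ ∈ Subgroup.center K}.Finite := by
  have hzf : (Subgroup.center K : Set K).Finite := Set.toFinite _
  have hsub : {y : K | x * y * x⁻¹ * y⁻¹ ∈ Subgroup.center K} ⊆
      ⋃ z ∈ (Subgroup.center K : Set K), {y : K | x * y * x⁻¹ * y⁻¹ = z} := by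
    intro y hy
    exact Set.mem_biUnion hy rfl
  refine Set.Finite.subset (Set.Finite.biUnion hzf ?_) hsub
  intro z _
  rcases Set.eq_empty_or_nonempty {y : K | x * y * x⁻¹ * y⁻¹ = z} with h | ⟨y', hy'⟩
  · rw [h]; exact Set.finite_empty
  · refine Set.Finite.subset (hx.image (fun w => y' * w)) ?_
    intro y hy
    have h1 : x * y * x⁻¹ * y⁻¹ = x * y' * x⁻¹ * y'⁻¹ := Eq.trans hy (Eq.symm hy')
    have h2 : y * x⁻¹ * y⁻¹ = y' * x⁻¹ * y'⁻¹ := by
      have := congrArg (fun w => x⁻¹ * w) h1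
      simpa [mul_assoc] using this
    have h3 : y'⁻¹ * y * x⁻¹ = x⁻¹ * (y'⁻¹ * y) := by
      have := congrArg (fun w => y'⁻¹ * w * y) h2
      simpa [mul_assoc] using this
    refine ⟨y'⁻¹ * y, ?_, by group⟩
    show y'⁻¹ * y ∈ Subgroup.centralizer {x}
    rw [Subgroup.mem_centralizer_singleton_iff]
    have h4 := congrArg (fun w => x * w * x) h3
    have h5 : x * (y'⁻¹ * y) = y'⁻¹ * y * x := by simpa [mul_assoc] using h4
    exact h5.symm

end Pool.Agent.Helper565.Sym
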