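import Pool.Agent.Helper565.Sym.Defs

set_option autoImplicit false

namespace Pool.Agent.Helper565.Sym



theorem bad_finite (Q : Type) [Group Q] (ht : ∀ x : Q, IsOfFinOrder x)
    (hc : ∀ x : Q, x ≠ 1 → (Subgroup.centralizer {x} : Set Q).Finite)
    (i : Q) (hi : i * i = 1) (h1 : i ≠ 1) :
    {j : Q | j * j = 1 ∧ ¬ ∃ m : ℕ, Odd m ∧ (i * j) ^ m = 1}.Finite := by
  have hfin : (⋃ z ∈ ((Subgroup.centralizer {i} : Set Q) \ {1}),
      (Subgroup.centralizer {z} : Set Q)).Finite := by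
    refine Set.Finite.biUnion ((hc i h1).subset Set.diff_subset) ?_
    intro z hz
    exact hc z hz.2
  refine hfin.subset ?_
  rintro j ⟨hj, hno⟩
  set x := i * j with hx
  have hpos : 0 < orderOf x := (ht x).orderOf_pos
  have hne : ¬ Odd (orderOf x) := fun ho => hno ⟨orderOf x, ho, pow_orderOf_eq_one x⟩
  rw [Nat.not_odd_iff_even] at hne
  obtain ⟨m, hm⟩ := hne
  have hm0 : 0 < m := by omega
  have hii : i⁻¹ = i := inv_eq_of_mul_eq_one_left hi
  have hjj : j⁻¹ = j := inv_eq_of_mul_eq_one_left hj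
  have hz1 : x ^ m ≠ 1 := pow_ne_one_of_lt_orderOf hm0.ne' (by omega)
  have hz2 : x ^ m * x ^ m = 1 := by
    rw [← pow_add, ← hm, pow_orderOf_eq_one]
  have hzinv : (x ^ m)⁻¹ = x ^ m := inv_eq_of_mul_eq_one_left hz2
  have hxinv : x⁻¹ = j * i := by
    rw [hx, mul_inv_rev, hii, hjj]
  have hci : i * x * i⁻¹ = x⁻¹ := by
    rw [hxinv, hx, hii, ← mul_assoc, hi, one_mul]
  have hcj : j * x * j⁻¹ = x⁻¹ := by
    rw [hxinv, hx, hjj, mul_assoc, mul_assoc, hj, mul_one]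
  have hzi : i * x ^ m * i⁻¹ = x ^ m := by
    rw [← conj_pow, hci, inv_pow, hzinv]
  have hzj : j * x ^ m * j⁻¹ = x ^ m := by
    rw [← conj_pow, hcj, inv_pow, hzinv]
  have hi' : i * x ^ m = x ^ m * i := mul_inv_eq_iff_eq_mul.mp hzi
  have hj' : j * x ^ m = x ^ m * j := mul_inv_eq_iff_eq_mul.mp hzj
  rw [Set.mem_iUnion₂]
  refine ⟨x ^ m, ⟨?_, hz1⟩, ?_⟩
  · rw [SetLike.mem_coe, Subgroup.mem_centralizer_iff]
    intro h hh
    rw [Set.mem_singleton_iff.mp hh]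
    exact hi'
  · rw [SetLike.mem_coe, Subgroup.mem_centralizer_iff]
    intro h hh
    rw [Set.mem_singleton_iff.mp hh]
    exact hj'.symm

end Pool.Agent.Helper565.Sym
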