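import Pool.Agent.Helper565.Sym.Defs

set_option autoImplicit false

namespace Pool.Agent.Helper565.Sym



theorem conj_infinite (G : Type) [Group G] [Infinite G] (x : G)
    (hx : (Subgroup.centralizer {x} : Set G).Finite) :
    (Set.range (fun g : G => g⁻¹ * x * g)).Infinite := by
  intro hfin
  have h1 : (Set.univ : Set G).Finite := by
    apply Set.Finite.of_finite_fibers (fun g : G => g⁻¹ * x * g)
    · rw [Set.image_univ]; exact hfin
    · rintro e ⟨g0, -, rfl⟩
      refine (hx.image (fun c => c * g0)).subset ?_
      rintro g ⟨-, hg⟩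
      simp only [Set.mem_preimage, Set.mem_singleton_iff] at hg
      refine ⟨g * g0⁻¹, ?_, by simp⟩
      rw [SetLike.mem_coe, Subgroup.mem_centralizer_singleton_iff]
      have h2 : x * g = g * (g0⁻¹ * x * g0) := by rw [← hg]; group
      calc g * g0⁻¹ * x = g * (g0⁻¹ * x * g0) * g0⁻¹ := by group
        _ = x * g * g0⁻¹ := by rw [← h2]
        _ = x * (g * g0⁻¹) := by group
  exact Set.infinite_univ h1

end Pool.Agent.Helper565.Sym
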