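import Pool.Agent.Helper565.Sym.Defs

set_option autoImplicit false

namespace Pool.Agent.Helper565.Sym



theorem key_relation (Q : Type) [Group Q] (i b c r qb qc : Q) (hi : i * i = 1)
    (hb1 : qb⁻¹ * i * qb = b) (hb2 : i * qb * i = qb⁻¹)
    (hc1 : qc⁻¹ * i * qc = c) (hc2 : i * qc * i = qc⁻¹)
    (hr1 : r⁻¹ * b * r = c) (hr2 : b * r * b = r⁻¹) :
    ∃ d : Q, d * i = i * d ∧ r = qb⁻¹ * d * qc ∧ d * qc⁻¹ * qb * d = qb * qc⁻¹ := by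
  have hii : i⁻¹ = i := inv_eq_of_mul_eq_one_right hi
  subst hb1
  subst hc1
  have hd : (qb * r * qc⁻¹) * i = i * (qb * r * qc⁻¹) := by
    symm
    calc i * (qb * r * qc⁻¹) = (qb * r * qc⁻¹) *
          (qc * (r⁻¹ * (qb⁻¹ * i * qb) * r) * qc⁻¹) := by group
      _ = (qb * r * qc⁻¹) * (qc * (qc⁻¹ * i * qc) * qc⁻¹) := by rw [hr1]
      _ = (qb * r * qc⁻¹) * i := by group
  refine ⟨qb * r * qc⁻¹, hd, by group, ?_⟩
  have hb3 : i * qb⁻¹ * i = qb := by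
    have := congrArg (fun x => x⁻¹) hb2
    simp only [mul_inv_rev, hii, inv_inv] at this
    rw [mul_assoc]
    exact this
  have h1 : (qb * r * qc⁻¹) * qc⁻¹ * qb = qb * qc⁻¹ * (qb * r * qc⁻¹)⁻¹ := by
    calc (qb * r * qc⁻¹) * qc⁻¹ * qb = (qb * r * qc⁻¹) * (i * qc * i) * (i * qb⁻¹ * i) := by
          rw [hc2, hb3]
      _ = ((qb * r * qc⁻¹) * i) * qc * (i * i) * qb⁻¹ * i := by group
      _ = (i * (qb * r * qc⁻¹)) * qc * 1 * qb⁻¹ * i := by rw [hd, hi]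
      _ = qb * ((qb⁻¹ * i * qb) * r * (qb⁻¹ * i * qb)) * qb⁻¹ := by group
      _ = qb * r⁻¹ * qb⁻¹ := by rw [hr2]
      _ = qb * qc⁻¹ * (qb * r * qc⁻¹)⁻¹ := by group
  rw [h1]
  group

end Pool.Agent.Helper565.Sym
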