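import Pool.Agent.Helper565.Sym.Defs

set_option autoImplicit false

namespace Pool.Agent.Helper565.Sym



theorem mid_exists (Q : Type) [Group Q] (i j : Q) (hi : i * i = 1) (hj : j * j = 1)
    (m : ℕ) (hm : Odd m) (h : (i * j) ^ m = 1) :
    ∃ r : Q, r⁻¹ * i * r = j ∧ i * r * i = r⁻¹ ∧ j * r * j = r⁻¹ := by
  obtain ⟨a, rfl⟩ := hm
  have hi' : i⁻¹ = i := inv_eq_of_mul_eq_one_left hi
  have hj' : j⁻¹ = j := inv_eq_of_mul_eq_one_left hj
  have hw : (i * j)⁻¹ = j * i := by rw [mul_inv_rev, hi', hj']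
  have h1 : i * (i * j) * i⁻¹ = (i * j)⁻¹ := by
    rw [hw, hi', ← mul_assoc, hi, one_mul]
  have h2 : j * (i * j) * j⁻¹ = (i * j)⁻¹ := by
    rw [hw, hj', mul_assoc, mul_assoc, hj, mul_one]
  have h3 : i * (i * j) ^ (a + 1) * i = ((i * j) ^ (a + 1))⁻¹ := by
    have := (conj_pow (i := a + 1) (a := i) (b := i * j)).symm
    rw [h1, hi', inv_pow] at this
    exact this
  have h4 : j * (i * j) ^ (a + 1) * j = ((i * j) ^ (a + 1))⁻¹ := by
    have := (conj_pow (i := a + 1) (a := j) (b := i * j)).symm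
    rw [h2, hj', inv_pow] at this
    exact this
  refine ⟨(i * j) ^ (a + 1), ?_, h3, h4⟩
  rw [← h3]
  have e : i * (i * j) ^ (a + 1) * i * i * (i * j) ^ (a + 1) = i * ((i * j) ^ (2 * a + 1) * (i * j)) := by
    rw [mul_assoc (i * (i * j) ^ (a + 1)) i i, hi, mul_one, mul_assoc, ← pow_add, ← pow_succ]
    congr 2
    ring
  rw [e, h, one_mul, ← mul_assoc, hi, one_mul]

end Pool.Agent.Helper565.Sym
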