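import Pool.Agent.Helper565.Sym.Defs
import Pool.Agent.Helper565.Sym.P_bad_finite
import Pool.Agent.Helper565.Sym.P_mid_exists
import Pool.Agent.Helper565.Sym.P_key_relation
import Pool.Agent.Helper565.Sym.P_conj_infinite

set_option autoImplicit false

namespace Pool.Agent.Helper565.Sym



theorem no_invol_comm (Q : Type) [Group Q] (w x x' z d e : Q)
    (h1 : d * x⁻¹ * w * d = w * x⁻¹) (h1' : d * x'⁻¹ * w * d = w * x'⁻¹)
    (h2 : e * z⁻¹ * x * e = x * z⁻¹) (h2' : e * z⁻¹ * x' * e = x' * z⁻¹) :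
    (x * x'⁻¹) * (w * d * e * z⁻¹) = (w * d * e * z⁻¹) * (x * x'⁻¹) := by
  have a1 : w * z⁻¹ = d * (x⁻¹ * (w * d * e * z⁻¹) * x) * e := by
    calc w * z⁻¹ = (w * x⁻¹) * (x * z⁻¹) := by group
      _ = (d * x⁻¹ * w * d) * (e * z⁻¹ * x * e) := by rw [h1, h2]
      _ = _ := by group
  have a2 : w * z⁻¹ = d * (x'⁻¹ * (w * d * e * z⁻¹) * x') * e := by
    calc w * z⁻¹ = (w * x'⁻¹) * (x' * z⁻¹) := by group
      _ = (d * x'⁻¹ * w * d) * (e * z⁻¹ * x' * e) := by rw [h1', h2']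
      _ = _ := by group
  have a3 : x⁻¹ * (w * d * e * z⁻¹) * x = x'⁻¹ * (w * d * e * z⁻¹) * x' := by
    have := a1.symm.trans a2
    exact mul_left_cancel (mul_right_cancel this)
  calc (x * x'⁻¹) * (w * d * e * z⁻¹) = x * (x'⁻¹ * (w * d * e * z⁻¹) * x') * x'⁻¹ := by group
    _ = x * (x⁻¹ * (w * d * e * z⁻¹) * x) * x'⁻¹ := by rw [a3]
    _ = _ := by group

theorem no_invol (Q : Type) [Group Q] [Infinite Q] (ht : ∀ x : Q, IsOfFinOrder x)
    (hc : ∀ x : Q, x ≠ 1 → (Subgroup.centralizer {x} : Set Q).Finite) :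
    ∀ x : Q, x * x = 1 → x = 1 := by
  classical
  intro i hi
  by_contra hi1
  set B : Q → Set Q := fun t => {j : Q | j * j = 1 ∧ ¬ ∃ m : ℕ, Odd m ∧ (t * j) ^ m = 1} with hB
  have hBf : ∀ t, t * t = 1 → t ≠ 1 → (B t).Finite := fun t h h' => bad_finite Q ht hc t h h'
  set I0 : Set Q := {j | j * j = 1 ∧ j ≠ 1 ∧ j ∉ B i} with hI0
  have hinf : I0.Infinite := by
    have h1 := conj_infinite Q i (hc i hi1)
    refine (h1.diff (hBf i hi hi1)).mono ?_
    rintro j ⟨⟨g, rfl⟩, hj⟩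
    refine ⟨?_, ?_, hj⟩
    · simp only
      calc g⁻¹ * i * g * (g⁻¹ * i * g) = g⁻¹ * (i * i) * g := by group
        _ = 1 := by rw [hi]; group
    · intro h
      simp only at h
      apply hi1
      calc i = g * (g⁻¹ * i * g) * g⁻¹ := by group
        _ = 1 := by rw [h]; group
  have hq : ∀ j ∈ I0, ∃ r : Q, r⁻¹ * i * r = j ∧ i * r * i = r⁻¹ := by
    rintro j ⟨hj, hj1, hjB⟩
    have h1 : ∃ m : ℕ, Odd m ∧ (i * j) ^ m = 1 := by
      by_contra h
      exact hjB ⟨hj, h⟩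
    obtain ⟨m, hm, h2⟩ := h1
    obtain ⟨r, hr1, hr2, _⟩ := mid_exists Q i j hi hj m hm h2
    exact ⟨r, hr1, hr2⟩
  choose! q hq1 hq2 using hq
  have hD : ∀ u ∈ I0, ∀ v ∈ I0, v ∉ B u → ∃ d : Q, d * i = i * d ∧
      d * (q v)⁻¹ * q u * d = q u * (q v)⁻¹ := by
    intro u hu v hv hvu
    have h1 : ∃ m : ℕ, Odd m ∧ (u * v) ^ m = 1 := by
      by_contra h
      exact hvu ⟨hv.1, h⟩
    obtain ⟨m, hm, h2⟩ := h1
    obtain ⟨r, hr1, hr2, _⟩ := mid_exists Q u v hu.1 hv.1 m hm h2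
    obtain ⟨d, hd1, _, hd2⟩ := key_relation Q i u v r (q u) (q v) hi (hq1 u hu) (hq2 u hu)
      (hq1 v hv) (hq2 v hv) hr1 hr2
    exact ⟨d, hd1, hd2⟩
  choose! D hD1 hD2 using hD
  obtain ⟨b, hb⟩ := hinf.nonempty
  set C : Finset Q := (hc i hi1).toFinset with hC
  have hCm : ∀ d, d * i = i * d → d ∈ C := by
    intro d hd
    rw [hC, Set.Finite.mem_toFinset]
    change d ∈ Subgroup.centralizer {i}
    rw [Subgroup.mem_centralizer_singleton_iff]
    first | exact hd | exact hd.symm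
  have hinf1 : (I0 \ B b).Infinite := hinf.diff (hBf b hb.1 hb.2.1)
  obtain ⟨S, hS, hSc⟩ := hinf1.exists_subset_card_eq ((C ×ˢ C).card + 1)
  set F : Set Q := I0 \ ⋃ c ∈ S, B c with hF
  have hFinf : F.Infinite := by
    apply hinf.diff
    apply Set.Finite.biUnion S.finite_toSet
    intro c hcS
    have := (hS hcS).1
    exact hBf c this.1 this.2.1
  set T : Q × Q × Q × Q → Set Q := fun p => {f | f ∈ F ∧ D b p.1 = p.2.2.1 ∧
    D b p.2.1 = p.2.2.1 ∧ D p.1 f = p.2.2.2 ∧ D p.2.1 f = p.2.2.2} with hT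
  have hTf : ∀ p : Q × Q × Q × Q, p.1 ∈ S → p.2.1 ∈ S → p.1 ≠ p.2.1 → (T p).Finite := by
    rintro ⟨c, c', d, e⟩ hcS hcS' hne
    simp only at hcS hcS' hne
    have hcI := (hS hcS).1
    have hcI' := (hS hcS').1
    have hy : q c * (q c')⁻¹ ≠ 1 := by
      intro h
      apply hne
      have h1 : q c = q c' := mul_inv_eq_one.mp h
      rw [← hq1 c hcI, ← hq1 c' hcI', h1]
    refine Set.Finite.of_injOn (f := fun f => q b * d * e * (q f)⁻¹) ?_ ?_ (hc _ hy)
    · rintro f ⟨hf, h1, h2, h3, h4⟩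
      simp only at h1 h2 h3 h4
      have hfI := hf.1
      have hfc : f ∉ B c := fun h => hf.2 (Set.mem_biUnion hcS h)
      have hfc' : f ∉ B c' := fun h => hf.2 (Set.mem_biUnion hcS' h)
      have e1 := hD2 b hb c hcI (hS hcS).2
      have e1' := hD2 b hb c' hcI' (hS hcS').2
      have e2 := hD2 c hcI f hfI hfc
      have e2' := hD2 c' hcI' f hfI hfc'
      rw [h1] at e1
      rw [h2] at e1'
      rw [h3] at e2
      rw [h4] at e2'
      have := no_invol_comm Q (q b) (q c) (q c') (q f) d e e1 e1' e2 e2'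
      change _ ∈ Subgroup.centralizer {q c * (q c')⁻¹}
      rw [Subgroup.mem_centralizer_singleton_iff]
      first | exact this | exact this.symm
    · rintro f ⟨hf, _⟩ f' ⟨hf', _⟩ h
      simp only at h
      have h1 : (q f)⁻¹ = (q f')⁻¹ := mul_left_cancel h
      have h2 : q f = q f' := inv_injective h1
      rw [← hq1 f hf.1, ← hq1 f' hf'.1, h2]
  apply hFinf
  have hcov : F ⊆ ⋃ p ∈ ((S ×ˢ S ×ˢ C ×ˢ C).filter fun p => p.1 ≠ p.2.1), T p := by
    intro f hf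
    have hmaps : ∀ c ∈ S, (D b c, D c f) ∈ C ×ˢ C := by
      intro c hcS
      have hfc : f ∉ B c := fun h => hf.2 (Set.mem_biUnion hcS h)
      rw [Finset.mem_product]
      exact ⟨hCm _ (hD1 b hb c (hS hcS).1 (hS hcS).2), hCm _ (hD1 c (hS hcS).1 f hf.1 hfc)⟩
    obtain ⟨c, hcS, c', hcS', hne, heq⟩ := Finset.exists_ne_map_eq_of_card_lt_of_maps_to
      (s := S) (t := C ×ˢ C) (f := fun c => (D b c, D c f)) (by rw [hSc]; exact Nat.lt_succ_self _)
      hmaps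
    simp only [Prod.mk.injEq] at heq
    have hm := Finset.mem_product.mp (hmaps c hcS)
    refine Set.mem_biUnion (x := (c, c', D b c, D c f)) ?_ ⟨hf, rfl, heq.1.symm, rfl, heq.2.symm⟩
    simp only [Finset.coe_filter, Finset.mem_product, Set.mem_setOf_eq]
    exact ⟨⟨hcS, hcS', hm.1, hm.2⟩, hne⟩
  refine Set.Finite.subset ?_ hcov
  apply Set.Finite.biUnion (Finset.finite_toSet _)
  intro p hp
  rw [Finset.mem_coe, Finset.mem_filter, Finset.mem_product, Finset.mem_product] at hp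
  exact hTf p hp.1.1 hp.1.2.1 hp.2

end Pool.Agent.Helper565.Sym
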