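import Pool.Agent.Helper565.Sym.Defs
import Pool.Agent.Helper565.Sym.P_comm_mod_finite
import Pool.Agent.Helper565.Sym.P_no_invol

set_option autoImplicit false

namespace Pool.Agent.Helper565.Sym



theorem odd_mod_center (K : Type) [Group K] [Infinite K] (ht : ∀ x : K, IsOfFinOrder x)
    (hz : Finite (Subgroup.center K))
    (hc : ∀ x : K, x ∉ Subgroup.center K → (Subgroup.centralizer {x} : Set K).Finite) :
    ∀ x : K, ∃ m : ℕ, Odd m ∧ x ^ m ∈ Subgroup.center K := by
  intro x
  have hQinf : Infinite (K ⧸ Subgroup.center K) := by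
    rw [← not_finite_iff_infinite]
    intro hfin
    have h1 : Finite K := Finite.of_equiv _ (Subgroup.groupEquivQuotientProdSubgroup (s := Subgroup.center K)).symm
    exact not_finite K
  have htQ : ∀ q : K ⧸ Subgroup.center K, IsOfFinOrder q := by
    intro q
    obtain ⟨y, rfl⟩ := QuotientGroup.mk_surjective q
    exact (QuotientGroup.mk' (Subgroup.center K)).isOfFinOrder (ht y)
  have hcQ : ∀ q : K ⧸ Subgroup.center K, q ≠ 1 →
      (Subgroup.centralizer {q} : Set (K ⧸ Subgroup.center K)).Finite := by
    intro q hq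
    obtain ⟨y, rfl⟩ := QuotientGroup.mk_surjective q
    have hy : y ∉ Subgroup.center K := by
      intro h
      exact hq ((QuotientGroup.eq_one_iff y).2 h)
    have hfin := comm_mod_finite K hz y (hc y hy)
    refine (hfin.image (fun w : K => (w : K ⧸ Subgroup.center K))).subset ?_
    intro p hp
    obtain ⟨w, rfl⟩ := QuotientGroup.mk_surjective p
    refine ⟨w, ?_, rfl⟩
    have h1 := Subgroup.mem_centralizer_singleton_iff.1 hp
    show y * w * y⁻¹ * w⁻¹ ∈ Subgroup.center K
    rw [← QuotientGroup.eq_one_iff]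
    simp only [QuotientGroup.mk_mul, QuotientGroup.mk_inv]
    have h2 : (y : K ⧸ Subgroup.center K) * w = w * y := by
      first
        | exact h1
        | exact h1.symm
    rw [h2]
    group
  have hinv := no_invol (K ⧸ Subgroup.center K) htQ hcQ
  set q : K ⧸ Subgroup.center K := (x : K ⧸ Subgroup.center K) with hq
  have hpos : 0 < orderOf q := (htQ q).orderOf_pos
  refine ⟨orderOf q, ?_, ?_⟩
  · rw [← Nat.not_even_iff_odd]
    rintro ⟨a, ha⟩
    have h1 : q ^ a * q ^ a = 1 := by
      rw [← pow_add, ← ha, pow_orderOf_eq_one]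
    have h2 := hinv _ h1
    have h3 := Nat.le_of_dvd (by omega) (orderOf_dvd_of_pow_eq_one h2)
    omega
  · rw [← QuotientGroup.eq_one_iff, QuotientGroup.mk_pow, ← hq, pow_orderOf_eq_one]

end Pool.Agent.Helper565.Sym
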