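import Pool.Agent.Helper565.Sym.Defs

set_option autoImplicit false

namespace Pool.Agent.Helper565.Sym



theorem reduce_center (G : Type) [Group G] [Infinite G] (E : Finset G)
    (hE : ∀ x : G, x ∉ E → (Subgroup.centralizer {x} : Set G).Finite) :
    ∃ H : Subgroup G, Infinite H ∧ Finite (Subgroup.center H) ∧
      ∀ x : H, x ∉ Subgroup.center H → (Subgroup.centralizer {x} : Set H).Finite := by
  classical
  let D : Set G := {x | ¬ (Subgroup.centralizer {x} : Set G).Finite}
  have hDE : D ⊆ (E : Set G) := by
    intro x hx
    by_contra h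
    exact hx (hE x h)
  have hDf : D.Finite := E.finite_toSet.subset hDE
  have hconj : ∀ (g x : G), x ∈ D → g * x * g⁻¹ ∈ D := by
    intro g x hx hfin
    apply hx
    have : (Subgroup.centralizer {x} : Set G) ⊆
        (fun y => g⁻¹ * y * g) '' (Subgroup.centralizer {g * x * g⁻¹} : Set G) := by
      intro y hy
      refine ⟨g * y * g⁻¹, ?_, by group⟩
      rw [SetLike.mem_coe, Subgroup.mem_centralizer_iff] at hy ⊢
      intro z hz
      rw [Set.mem_singleton_iff] at hz
      subst hz
      have h1 := hy x rfl
      calc g * x * g⁻¹ * (g * y * g⁻¹) = g * (x * y) * g⁻¹ := by group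
        _ = g * (y * x) * g⁻¹ := by rw [h1]
        _ = g * y * g⁻¹ * (g * x * g⁻¹) := by group
    exact (hfin.image _).subset this
  haveI : Finite D := hDf
  letI act : MulAction G D :=
    { smul := fun g x => ⟨g * x.1 * g⁻¹, hconj g x.1 x.2⟩
      one_smul := by
        intro x
        apply Subtype.ext
        show 1 * x.1 * 1⁻¹ = x.1
        simp
      mul_smul := by
        intro g h x
        apply Subtype.ext
        show (g * h) * x.1 * (g * h)⁻¹ = g * (h * x.1 * h⁻¹) * g⁻¹
        group }
  let f : G →* Equiv.Perm D := MulAction.toPermHom G D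
  have hker : ∀ g : G, g ∈ f.ker ↔ ∀ x ∈ D, g * x = x * g := by
    intro g
    rw [MonoidHom.mem_ker]
    constructor
    · intro h x hx
      have h1 : f g ⟨x, hx⟩ = ⟨x, hx⟩ := by rw [h]; rfl
      have h2 : g * x * g⁻¹ = x := congrArg Subtype.val h1
      exact mul_inv_eq_iff_eq_mul.mp h2
    · intro h
      apply Equiv.ext
      rintro ⟨x, hx⟩
      apply Subtype.ext
      show g * x * g⁻¹ = x
      exact mul_inv_eq_iff_eq_mul.mpr (h x hx)
  have hcen : ∀ x : f.ker, x.1 ∉ D → (Subgroup.centralizer {x} : Set f.ker).Finite := by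
    intro x hx
    have hfx : (Subgroup.centralizer {x.1} : Set G).Finite := not_not.mp hx
    refine Set.Finite.of_finite_image (f := Subtype.val) (hfx.subset ?_)
      Subtype.val_injective.injOn
    rintro _ ⟨y, hy, rfl⟩
    rw [SetLike.mem_coe, Subgroup.mem_centralizer_iff] at hy ⊢
    intro z hz
    rw [Set.mem_singleton_iff] at hz
    subst hz
    exact congrArg Subtype.val (hy x rfl)
  have hinf : Infinite f.ker := by
    rw [← not_finite_iff_infinite]
    intro hfin
    have h1 := Subgroup.card_mul_index f.ker
    have h2 : f.ker.index ≠ 0 := Subgroup.FiniteIndex.index_ne_zero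
    have h3 : Nat.card f.ker ≠ 0 := Nat.card_pos.ne'
    have h4 : Nat.card G = 0 := Nat.card_eq_zero_of_infinite
    rw [h4] at h1
    exact (mul_ne_zero h3 h2) h1
  have hnc : ∀ x : f.ker, x ∉ Subgroup.center f.ker →
      (Subgroup.centralizer {x} : Set f.ker).Finite := by
    intro x hx
    apply hcen
    intro hD
    apply hx
    rw [Subgroup.mem_center_iff]
    intro g
    apply Subtype.ext
    exact (hker g.1).mp g.2 x.1 hD
  refine ⟨f.ker, hinf, ?_, hnc⟩
  by_cases hall : ∃ x : f.ker, x ∉ Subgroup.center f.ker
  · obtain ⟨x, hx⟩ := hall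
    refine (hnc x hx).subset ?_
    intro y hy
    rw [SetLike.mem_coe, Subgroup.mem_centralizer_iff]
    intro z hz
    rw [Set.mem_singleton_iff] at hz
    subst hz
    rw [SetLike.mem_coe, Subgroup.mem_center_iff] at hy
    exact hy z
  · push Not at hall
    exfalso
    have hex : ∃ x : f.ker, x.1 ∉ D := by
      by_contra hcon
      push Not at hcon
      have : (Set.univ : Set f.ker).Finite := by
        refine Set.Finite.of_finite_image (f := Subtype.val) (hDf.subset ?_)
          Subtype.val_injective.injOn
        rintro _ ⟨y, _, rfl⟩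
        exact hcon y
      exact Set.infinite_univ this
    obtain ⟨x, hx⟩ := hex
    have h1 := hcen x hx
    have h2 : (Subgroup.centralizer {x} : Set f.ker) = Set.univ := by
      ext y
      simp only [Set.mem_univ, iff_true, SetLike.mem_coe]
      rw [Subgroup.mem_centralizer_iff]
      intro z hz
      rw [Set.mem_singleton_iff] at hz
      subst hz
      have := hall y
      rw [Subgroup.mem_center_iff] at this
      exact this z
    rw [h2] at h1
    exact Set.infinite_univ h1

end Pool.Agent.Helper565.Sym
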