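import Pool.Agent.Helper565.Sym.Defs

set_option autoImplicit false

namespace Pool.Agent.Helper565.Sym



theorem sec_trans (G K L : Type) [Group G] [Group K] [Group L] (h1 : Sec G K) (h2 : Sec K L) :
    Sec G L := by
  obtain ⟨H1, f1, hf1, hk1⟩ := h1
  obtain ⟨H2, f2, hf2, hk2⟩ := h2
  let A : Subgroup H1 := H2.comap f1
  let g : A →* H2 := f1.subgroupComap H2
  have hg : Function.Surjective g := by
    rintro ⟨k, hk⟩
    obtain ⟨x, hx⟩ := hf1 k
    refine ⟨⟨x, ?_⟩, ?_⟩
    · show f1 x ∈ H2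
      rw [hx]; exact hk
    · apply Subtype.ext
      exact hx
  let e : A ≃* A.map H1.subtype := A.equivMapOfInjective H1.subtype Subtype.val_injective
  refine ⟨A.map H1.subtype, f2.comp (g.comp e.symm.toMonoidHom), ?_, ?_⟩
  · intro l
    obtain ⟨y, hy⟩ := hf2 l
    obtain ⟨a, ha⟩ := hg y
    refine ⟨e a, ?_⟩
    show f2 (g (e.symm (e a))) = l
    rw [MulEquiv.symm_apply_apply, ha, hy]
  · let S : Set H1 := {x | ∃ h : f1 x ∈ H2, f2 ⟨f1 x, h⟩ = 1}
    have hfk1 : (f1.ker : Set H1).Finite := Set.toFinite _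
    have hfk2 : (f2.ker : Set H2).Finite := Set.toFinite _
    have hS : S.Finite := by
      refine Set.Finite.of_finite_fibers f1 ?_ ?_
      · refine (hfk2.image Subtype.val).subset ?_
        rintro _ ⟨x, ⟨h, hx⟩, rfl⟩
        exact ⟨⟨f1 x, h⟩, hx, rfl⟩
      · rintro _ ⟨x, hx, rfl⟩
        refine (hfk1.image (fun z => x * z)).subset ?_
        rintro y ⟨_, hy⟩
        refine ⟨x⁻¹ * y, ?_, by simp⟩
        show f1 (x⁻¹ * y) = 1
        rw [map_mul, map_inv]
        have hy' : f1 y = f1 x := hy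
        rw [hy']
        simp
    have : Finite S := hS
    refine Finite.of_injective (β := S)
      (fun x => ⟨((e.symm x.1 : A) : H1), ?_, ?_⟩) ?_
    · exact (e.symm x.1).2
    · exact x.2
    · intro x y hxy
      have h1 : ((e.symm x.1 : A) : H1) = ((e.symm y.1 : A) : H1) :=
        congrArg (fun z : S => (z : H1)) hxy
      have h2 : (e.symm x.1 : A) = e.symm y.1 := Subtype.ext h1
      exact Subtype.ext (e.symm.injective h2)

end Pool.Agent.Helper565.Sym
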