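import Pool.Agent.Helper565.Sym.Defs
import Pool.Agent.Helper565.Sym.P_amp_large
import Pool.Agent.Helper565.Sym.P_amp_of_odd
import Pool.Agent.Helper565.Sym.P_amp_of_inford
import Pool.Agent.Helper565.Sym.P_not_large_of_col
import Pool.Agent.Helper565.Sym.P_col_sub
import Pool.Agent.Helper565.Sym.P_sec_sub
import Pool.Agent.Helper565.Sym.P_sec_trans
import Pool.Agent.Helper565.Sym.P_col_quot
import Pool.Agent.Helper565.Sym.P_reduce_center
import Pool.Agent.Helper565.Sym.P_odd_mod_center

set_option autoImplicit false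

namespace Pool.Agent.Helper565.Sym



theorem chain (k : ℕ) : ∀ (G : Type) [Group G] [Infinite G], Col G k →
    ∃ (K : Type) (_ : Group K), Nice K ∧ Sec G K ∧ ∃ l : ℕ, l ≤ k ∧ Col K l := by
  induction k using Nat.strong_induction_on with
  | _ k ih =>
    intro G _ _ hG
    obtain ⟨E, c, hc⟩ := hG
    have hG : Col G k := ⟨E, c, hc⟩
    have hfin : ∀ x : G, IsOfFinOrder x := by
      intro x
      by_contra hx
      exact not_large_of_col G k hG (amp_large G k (amp_of_inford G k x hx))
    by_cases hA : ∃ x : G, x ∉ E ∧ (Subgroup.centralizer {x} : Set G).Infinite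
    · obtain ⟨x, hx, hi⟩ := hA
      obtain ⟨h2k, K1, i1, hinf, hsec, hcol⟩ := col_quot G k E c hc x hx (hfin x) hi
      obtain ⟨K, i, hN, hs, l, hl, hcl⟩ := ih (k - 1) (by omega) K1 hcol
      exact ⟨K, i, hN, sec_trans G K1 K hsec hs, l, by omega, hcl⟩
    · have hE : ∀ x : G, x ∉ E → (Subgroup.centralizer {x} : Set G).Finite := by
        intro x hx
        by_contra hcon
        exact hA ⟨x, hx, hcon⟩
      obtain ⟨H, hHinf, hHcen, hHfin⟩ := reduce_center G E hE
      have hcolH := col_sub G k H hG
      have hfinH : ∀ x : H, IsOfFinOrder x := by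
        intro x
        by_contra hx
        exact not_large_of_col H k hcolH (amp_large H k (amp_of_inford H k x hx))
      have hoddH := odd_mod_center H hfinH hHcen hHfin
      refine ⟨H, inferInstance, ⟨hHinf, hHcen, ?_, hoddH, hHfin⟩, sec_sub G H, k, le_refl k, hcolH⟩
      by_contra hev
      rw [Nat.not_even_iff_odd] at hev
      apply not_large_of_col H k hcolH
      apply amp_large H k
      apply amp_of_odd H k
      intro x
      obtain ⟨m, hm, hxm⟩ := hoddH x
      refine ⟨m * Nat.card (Subgroup.center H), hm.mul hev, ?_⟩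
      rw [pow_mul]
      have h1 : (⟨x ^ m, hxm⟩ : Subgroup.center H) ^ Nat.card (Subgroup.center H) = 1 :=
        pow_card_eq_one'
      have h2 := congrArg (fun y : Subgroup.center H => (y : H)) h1
      exact h2

end Pool.Agent.Helper565.Sym
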