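import Pool.Agent.Helper565.Sym.Defs
import Pool.Agent.Helper565.Sym.P_amp_of_comm

set_option autoImplicit false

namespace Pool.Agent.Helper565.Sym



theorem amp_of_fc (G : Type) [Group G] (k : ℕ)
    (h : {x : G | (Subgroup.centralizer {x}).FiniteIndex}.Infinite) : Amp G k := by
  obtain ⟨D, hD⟩ : ∃ D : Set G, D = {x : G | (Subgroup.centralizer {x}).FiniteIndex} := ⟨_, rfl⟩
  rw [← hD] at h
  have hDmem : ∀ x, x ∈ D ↔ (Subgroup.centralizer {x}).FiniteIndex := by
    intro x
    rw [hD]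
    exact Iff.rfl
  have hclos : ∀ x y, x ∈ D → y ∈ D → x⁻¹ * y ∈ D := by
    intro x y hx hy
    rw [hDmem] at hx hy ⊢
    have hinf : (Subgroup.centralizer {x} ⊓ Subgroup.centralizer {y} : Subgroup G).FiniteIndex :=
      inferInstance
    refine Subgroup.finiteIndex_of_le (H := Subgroup.centralizer {x} ⊓ Subgroup.centralizer {y}) ?_
    intro g hg
    obtain ⟨h1, h2⟩ := Subgroup.mem_inf.mp hg
    rw [Subgroup.mem_centralizer_iff] at h1 h2
    have h1' := h1 x rfl
    have h2' := h2 y rfl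
    rw [Subgroup.mem_centralizer_iff]
    intro z hz
    rw [Set.mem_singleton_iff] at hz
    rw [hz]
    have c1 : Commute x g := h1'
    have c2 : Commute y g := h2'
    exact (c1.inv_left.mul_left c2)
  apply amp_of_comm G k D
  intro s hs
  obtain ⟨C, hC⟩ : ∃ C : Subgroup G, C = ⨅ x ∈ s, Subgroup.centralizer {x} := ⟨_, rfl⟩
  have hCf : C.FiniteIndex := by
    rw [hC]
    apply Subgroup.finiteIndex_iInf'
    intro x hx
    exact (hDmem x).1 (hs hx)
  intro hfin
  apply h
  have hsub : (D ∩ (C : Set G)).Finite := by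
    refine hfin.subset ?_
    intro y hy
    refine ⟨hy.1, ?_⟩
    intro x hx
    have h1 := hy.2
    rw [SetLike.mem_coe, hC, Subgroup.mem_iInf] at h1
    have h2 := h1 x
    rw [Subgroup.mem_iInf] at h2
    have h3 := h2 hx
    rw [Subgroup.mem_centralizer_iff] at h3
    exact h3 x rfl
  have hq : Finite (G ⧸ C) := Subgroup.finite_quotient_of_finiteIndex
  refine Set.Finite.of_finite_fibers (fun x : G => (QuotientGroup.mk x : G ⧸ C)) (Set.toFinite _) ?_
  rintro _ ⟨x0, hx0, rfl⟩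
  have hinj : Set.InjOn (fun y : G => x0⁻¹ * y)
      (D ∩ (fun x : G => (QuotientGroup.mk x : G ⧸ C)) ⁻¹' {(QuotientGroup.mk x0 : G ⧸ C)}) := by
    intro a _ b _ hab
    exact mul_left_cancel hab
  refine Set.Finite.of_finite_image (f := fun y : G => x0⁻¹ * y) (hsub.subset ?_) hinj
  rintro _ ⟨y, hy, rfl⟩
  refine ⟨hclos x0 y hx0 hy.1, ?_⟩
  have h1 : (QuotientGroup.mk y : G ⧸ C) = QuotientGroup.mk x0 := hy.2
  exact QuotientGroup.eq.mp h1.symm

end Pool.Agent.Helper565.Sym
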