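import Pool.Agent.Helper565.Sym.Defs

set_option autoImplicit false

namespace Pool.Agent.Helper565.Sym



theorem compact_col (G : Type) [Group G] (k : ℕ) (D : Set G)
    (h : ¬ ∃ c : G → Fin k, ∀ g t : G, t ∉ D → c (g * t) ≠ c (g * t⁻¹)) :
    ∃ Z H : Finset G, (∀ t ∈ H, t ∉ D) ∧
      ∀ c : G → Fin k, ∃ z ∈ Z, ∃ t ∈ H, c (z * t) = c (z * t⁻¹) := by
  classical
  have hcl : ∀ i : {p : G × G // p.2 ∉ D},
      IsClosed {c : G → Fin k | c (i.1.1 * i.1.2) ≠ c (i.1.1 * i.1.2⁻¹)} := by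
    intro i
    have hc : Continuous (fun c : G → Fin k => (c (i.1.1 * i.1.2), c (i.1.1 * i.1.2⁻¹))) :=
      (continuous_apply _).prodMk (continuous_apply _)
    exact (isClosed_discrete {q : Fin k × Fin k | q.1 ≠ q.2}).preimage hc
  have hemp : (Set.univ ∩ ⋂ i : {p : G × G // p.2 ∉ D},
      {c : G → Fin k | c (i.1.1 * i.1.2) ≠ c (i.1.1 * i.1.2⁻¹)}) = ∅ := by
    rw [Set.univ_inter, Set.eq_empty_iff_forall_notMem]
    intro c hc
    rw [Set.mem_iInter] at hc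
    exact h ⟨c, fun g t ht => hc ⟨(g, t), ht⟩⟩
  obtain ⟨u, hu⟩ := isCompact_univ.elim_finite_subfamily_closed _ hcl hemp
  refine ⟨u.image (fun i => i.1.1), u.image (fun i => i.1.2), ?_, ?_⟩
  · intro t ht
    obtain ⟨i, _, rfl⟩ := Finset.mem_image.1 ht
    exact i.2
  · intro c
    have hc : c ∉ (Set.univ ∩ ⋂ i ∈ u,
        {c : G → Fin k | c (i.1.1 * i.1.2) ≠ c (i.1.1 * i.1.2⁻¹)}) := by
      rw [hu]
      exact Set.notMem_empty c
    by_contra hcon
    push Not at hcon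
    apply hc
    refine ⟨Set.mem_univ _, ?_⟩
    rw [Set.mem_iInter₂]
    intro i hi
    exact hcon _ (Finset.mem_image_of_mem _ hi) _ (Finset.mem_image_of_mem _ hi)

end Pool.Agent.Helper565.Sym
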