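import Pool.Agent.Helper565.Sym.Defs

set_option autoImplicit false

namespace Pool.Agent.Helper565.Sym



open scoped Pointwise in
theorem conj_avoid_aux (G : Type) [Group G] (H E : Finset G)
    (hH : ∀ t ∈ H, ¬ (Subgroup.centralizer {t}).FiniteIndex) :
    ∃ b : G, ∀ t ∈ H, b⁻¹ * t * b ∉ E := by
  classical
  by_contra hcon
  push Not at hcon
  obtain ⟨g, hg⟩ : ∃ g : G × G → G, g = fun p =>
      if h : ∃ b : G, b⁻¹ * p.1 * b = p.2 then (Classical.choose h)⁻¹ else 1 := ⟨_, rfl⟩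
  have hcov : ⋃ i ∈ H ×ˢ E, g i • ((Subgroup.centralizer {i.1} : Subgroup G) : Set G) =
      Set.univ := by
    refine Set.iUnion₂_eq_univ_iff.mpr fun y => ?_
    obtain ⟨t, ht, he⟩ := hcon y⁻¹
    refine ⟨(t, y⁻¹⁻¹ * t * y⁻¹), Finset.mem_product.mpr ⟨ht, he⟩, ?_⟩
    have h : ∃ b : G, b⁻¹ * t * b = y⁻¹⁻¹ * t * y⁻¹ := ⟨y⁻¹, rfl⟩
    have hg' : g (t, y⁻¹⁻¹ * t * y⁻¹) = (Classical.choose h)⁻¹ := by
      rw [hg]
      exact dif_pos h
    have hs := Classical.choose_spec h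
    rw [hg']
    revert hs
    generalize Classical.choose h = b0
    intro hs
    rw [mem_leftCoset_iff, SetLike.mem_coe, Subgroup.mem_centralizer_singleton_iff, inv_inv b0]
    rw [inv_inv] at hs
    have h1 : t * b0 = b0 * (y * t * y⁻¹) := by
      rw [← hs]; group
    have h2 : t * (b0 * y) = b0 * y * t := by
      rw [← mul_assoc, h1]; group
    exact h2.symm
  obtain ⟨k, hk, hfi⟩ := Subgroup.exists_finiteIndex_of_leftCoset_cover hcov
  exact hH k.1 (Finset.mem_product.mp hk).1 hfi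

theorem conj_avoid (G : Type) [Group G] (H E : Finset G)
    (hH : ∀ t ∈ H, ¬ (Subgroup.centralizer {t}).FiniteIndex) :
    ∃ b : G, ∀ t ∈ H, b⁻¹ * t * b ∉ E :=
  conj_avoid_aux G H E hH

end Pool.Agent.Helper565.Sym
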