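import Pool.Agent.Helper565.Sym.Defs
import Pool.Agent.Helper565.Sym.P_amp_large
import Pool.Agent.Helper565.Sym.P_amp_of_fc
import Pool.Agent.Helper565.Sym.P_compact_col
import Pool.Agent.Helper565.Sym.P_conj_avoid

set_option autoImplicit false

namespace Pool.Agent.Helper565.Sym



theorem strong_col (G : Type) [Group G] [Infinite G] (k : ℕ) (h : ¬ Large G k) :
    {x : G | (Subgroup.centralizer {x}).FiniteIndex}.Finite ∧
    ∃ c : G → Fin k, ∀ g t : G, ¬ (Subgroup.centralizer {t}).FiniteIndex →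
      c (g * t) ≠ c (g * t⁻¹) := by
  classical
  refine ⟨?_, ?_⟩
  · by_contra hinf
    exact h (amp_large G k (amp_of_fc G k hinf))
  · by_contra hno
    obtain ⟨Z0, H0, hH0, hc0⟩ := compact_col G k
      {x : G | (Subgroup.centralizer {x}).FiniteIndex} hno
    apply h
    apply amp_large
    refine ⟨Z0.card + 1, by omega, fun E => ?_⟩
    obtain ⟨b, hb⟩ := conj_avoid G H0 E hH0
    refine ⟨Z0.image (fun z => z * b), H0.image (fun t => b⁻¹ * t * b),
      Finset.card_image_le.trans (Nat.le_succ _), fun c => ?_⟩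
    obtain ⟨z, hz, t, ht, hct⟩ := hc0 (fun x => c (x * b))
    refine ⟨z * b, Finset.mem_image_of_mem _ hz, b⁻¹ * t * b, Finset.mem_image_of_mem _ ht,
      hb t ht, ?_⟩
    have e1 : z * b * (b⁻¹ * t * b) = z * t * b := by group
    have e2 : z * b * (b⁻¹ * t * b)⁻¹ = z * t⁻¹ * b := by group
    rw [e1, e2]
    exact hct

end Pool.Agent.Helper565.Sym
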