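import Pool.Agent.Helper565.Sym.P_five_le
import Pool.Agent.Helper565.Sym.P_chain
import Pool.Agent.Helper565.Sym.P_strong_col
import Pool.Agent.Helper565.Sym.P_amp_of_invol
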