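import Mathlib

set_option autoImplicit false

namespace Pool.Agent.Helper565.Sym

/-- There is a one-coloured symmetric finite set with at least `n` elements. -/
def Big {G : Type} [Group G] {k : ℕ} (c : G → Fin k) (n : ℕ) : Prop :=
  ∃ (A : Finset G) (g : G), n ≤ A.card ∧ (∀ a ∈ A, ∀ b ∈ A, c a = c b) ∧
    (A : Set G) = (fun x => g * x⁻¹ * g) '' (A : Set G)

/-- Q1 for the group `G` and colourings with `k` colours. -/
def Large (G : Type) [Group G] (k : ℕ) : Prop := ∀ (c : G → Fin k) (n : ℕ), Big c n

/-- The hypothesis of the amplification lemma. -/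
def Amp (G : Type) [Group G] (k : ℕ) : Prop :=
  ∃ K : ℕ, 0 < K ∧ ∀ E : Finset G, ∃ Z H : Finset G, Z.card ≤ K ∧
    ∀ c : G → Fin k, ∃ z ∈ Z, ∃ h ∈ H, h ∉ E ∧ c (z * h) = c (z * h⁻¹)

/-- A colouring without symmetric monochromatic pairs, up to a finite set. -/
def Col (G : Type) [Group G] (k : ℕ) : Prop :=
  ∃ (E : Finset G) (c : G → Fin k), ∀ g h : G, h ∉ E → c (g * h) ≠ c (g * h⁻¹)

/-- `K` is a quotient of a subgroup of `G` by a finite normal subgroup. -/
def Sec (G K : Type) [Group G] [Group K] : Prop :=
  ∃ (H : Subgroup G) (f : H →* K), Function.Surjective f ∧ Finite f.ker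

/-- The remaining groups: infinite, finite centre of even order, non-central elements have finite
centralisers, and every element has an odd power in the centre. -/
structure Nice (K : Type) [Group K] : Prop where
  inf : Infinite K
  cen : Finite (Subgroup.center K)
  evn : Even (Nat.card (Subgroup.center K))
  odd : ∀ x : K, ∃ m : ℕ, Odd m ∧ x ^ m ∈ Subgroup.center K
  fin : ∀ x : K, x ∉ Subgroup.center K → (Subgroup.centralizer {x} : Set K).Finite

end Pool.Agent.Helper565.Sym
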