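import Pool.Agent.Helper565.Sym.Defs

set_option autoImplicit false

namespace Pool.Agent.Helper565.Sym



theorem exp_three_aux {Q : Type} [Group Q] (x b c : Q) (h1 : x * b * c = 1)
    (h2 : x * c * b = 1) : x * b = b * x := by
  have hbc : b * c = c * b := by
    have h3 : x * (b * c) = x * (c * b) := by
      rw [← mul_assoc, ← mul_assoc, h1, h2]
    exact mul_left_cancel h3
  have hx1 : x * b = c⁻¹ := eq_inv_of_mul_eq_one_left h1
  have hx2 : b * x = c⁻¹ := by
    have h3 : x = b⁻¹ * c⁻¹ := by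
      have h4 : x = (b * c)⁻¹ := eq_inv_of_mul_eq_one_left (by rw [← mul_assoc]; exact h1)
      rw [h4, hbc, mul_inv_rev]
    rw [h3, ← mul_assoc, mul_inv_cancel, one_mul]
  rw [hx1, hx2]

theorem exp_three (Q : Type) [Group Q] (h : ∀ x : Q, x ^ 3 = 1) (x g : Q) :
    x * (g⁻¹ * x * g) = (g⁻¹ * x * g) * x := by
  have hg : g * g = g⁻¹ := by
    have h1 := h g
    rw [pow_succ, pow_two] at h1
    exact eq_inv_of_mul_eq_one_left h1
  have hg' : g⁻¹ * g⁻¹ = g := by
    rw [← mul_inv_rev, hg, inv_inv]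
  have h1 : x * (g⁻¹ * x * g) * (g * x * g⁻¹) = 1 := by
    have h2 := h (x * g⁻¹)
    rw [pow_succ, pow_two] at h2
    rw [← h2]
    calc x * (g⁻¹ * x * g) * (g * x * g⁻¹) = x * g⁻¹ * x * (g * g) * x * g⁻¹ := by
          simp only [mul_assoc]
      _ = _ := by rw [hg]; simp only [mul_assoc]
  have h2 : x * (g * x * g⁻¹) * (g⁻¹ * x * g) = 1 := by
    have h3 := h (x * g)
    rw [pow_succ, pow_two] at h3
    rw [← h3]
    calc x * (g * x * g⁻¹) * (g⁻¹ * x * g) = x * g * x * (g⁻¹ * g⁻¹) * x * g := by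
          simp only [mul_assoc]
      _ = _ := by rw [hg']; simp only [mul_assoc]
  exact exp_three_aux x _ _ h1 h2

end Pool.Agent.Helper565.Sym
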