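import Pool.Agent.Helper565.Sym.Defs
import Pool.Agent.Helper565.Sym.P_comm_mod_finite
import Pool.Agent.Helper565.Sym.P_conj_infinite
import Pool.Agent.Helper565.Sym.P_exp_three

set_option autoImplicit false

namespace Pool.Agent.Helper565.Sym



theorem big_order (K : Type) [Group K] (hK : Nice K) :
    ∃ x : K, ∀ j : ℕ, 0 < j → j < 5 → x ^ j ∉ Subgroup.center K := by
  by_contra hcon
  push Not at hcon
  have hQ : ∀ q : K ⧸ Subgroup.center K, q ^ 3 = 1 := by
    intro q
    induction q using QuotientGroup.induction_on with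
    | H x =>
      obtain ⟨j, hj0, hj5, hj⟩ := hcon x
      obtain ⟨m, hm, hmx⟩ := hK.odd x
      have h1 : ((x : K ⧸ Subgroup.center K)) ^ j = 1 := by
        rw [← QuotientGroup.mk_pow]
        exact (QuotientGroup.eq_one_iff _).mpr hj
      have h2 : ((x : K ⧸ Subgroup.center K)) ^ m = 1 := by
        rw [← QuotientGroup.mk_pow]
        exact (QuotientGroup.eq_one_iff _).mpr hmx
      have h3 := orderOf_dvd_of_pow_eq_one h1
      have h4 := orderOf_dvd_of_pow_eq_one h2
      have h5 : Odd (orderOf (x : K ⧸ Subgroup.center K)) := Odd.of_dvd_nat hm h4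
      have h6 := Nat.le_of_dvd hj0 h3
      apply orderOf_dvd_iff_pow_eq_one.mp
      generalize orderOf (x : K ⧸ Subgroup.center K) = o at h5 h6
      have h7 : o < 5 := lt_of_le_of_lt h6 hj5
      obtain ⟨t, ht⟩ := h5
      have h8 : t = 0 ∨ t = 1 := by omega
      rcases h8 with h8 | h8
      · rw [ht, h8]; norm_num
      · rw [ht, h8]; exact ⟨1, by norm_num⟩
  have hx : ∃ x : K, x ∉ Subgroup.center K := by
    by_contra h
    push Not at h
    have h1 : Subgroup.center K = ⊤ := by
      rw [eq_top_iff]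
      intro x _
      exact h x
    have h2 := hK.cen
    have h3 := hK.inf
    rw [h1] at h2
    have h4 : Finite K := Finite.of_equiv _ (Subgroup.topEquiv (G := K)).toEquiv
    exact h3.not_finite h4
  obtain ⟨x, hx⟩ := hx
  have hfin := hK.fin x hx
  have hinf := hK.inf
  have h1 := conj_infinite K x hfin
  have h2 := comm_mod_finite K hK.cen x hfin
  apply h1
  apply h2.subset
  rintro y ⟨g, rfl⟩
  show x * (g⁻¹ * x * g) * x⁻¹ * (g⁻¹ * x * g)⁻¹ ∈ Subgroup.center K
  rw [← QuotientGroup.eq_one_iff]
  have h3 := exp_three (K ⧸ Subgroup.center K) hQ (x : K ⧸ Subgroup.center K)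
    (g : K ⧸ Subgroup.center K)
  simp only [QuotientGroup.mk_mul, QuotientGroup.mk_inv]
  rw [h3]
  group

end Pool.Agent.Helper565.Sym
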