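import Pool.Agent.Helper565.Sym.Defs
import Pool.Agent.Helper565.Sym.P_conj_avoid
import Pool.Agent.Helper565.Sym.P_big_order

set_option autoImplicit false

namespace Pool.Agent.Helper565.Sym



theorem five_le (K : Type) [Group K] (hK : Nice K) (k : ℕ) (h : Col K k) : 5 ≤ k := by
  classical
  obtain ⟨E, c, hc⟩ := h
  obtain ⟨x, hx⟩ := big_order K hK
  have hinf : Infinite K := hK.inf
  have hH : ∀ t ∈ (Finset.Icc 1 4).image (fun j : ℕ => x ^ j),
      ¬ (Subgroup.centralizer {t}).FiniteIndex := by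
    intro t ht hfi
    obtain ⟨j, hj, rfl⟩ := Finset.mem_image.1 ht
    rw [Finset.mem_Icc] at hj
    have h1 := hK.fin (x ^ j) (hx j (by omega) (by omega))
    have h2 : Finite (Subgroup.centralizer {x ^ j} : Subgroup K) := h1.to_subtype
    have h3 := Subgroup.card_mul_index (Subgroup.centralizer {x ^ j} : Subgroup K)
    have h4 : Nat.card (Subgroup.centralizer {x ^ j} : Subgroup K) ≠ 0 := Nat.card_pos.ne'
    have h5 : (Subgroup.centralizer {x ^ j} : Subgroup K).index ≠ 0 := hfi.index_ne_zero
    have h6 : Nat.card K ≠ 0 := by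
      rw [← h3]
      exact mul_ne_zero h4 h5
    have h7 : Finite K := Nat.finite_of_card_ne_zero h6
    exact not_finite K
  obtain ⟨b, hb⟩ := conj_avoid K _ E hH
  have hy : ∀ j : ℕ, 0 < j → j < 5 → (b⁻¹ * x * b) ^ j ∉ E := by
    intro j h0 h5
    have h1 : (b⁻¹ * x * b) ^ j = b⁻¹ * x ^ j * b := by
      have := conj_pow (a := b⁻¹) (b := x) (i := j)
      simpa using this
    rw [h1]
    exact hb _ (Finset.mem_image.2 ⟨j, Finset.mem_Icc.2 ⟨by omega, by omega⟩, rfl⟩)
  set y := b⁻¹ * x * b with hydef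
  have key : ∀ i j : ℕ, i < j → j < 5 → c (y ^ (2 * j)) ≠ c (y ^ (2 * i)) := by
    intro i j hij hj
    have h1 := hc (y ^ (i + j)) (y ^ (j - i)) (hy (j - i) (by omega) (by omega))
    have h2 : y ^ (i + j) * y ^ (j - i) = y ^ (2 * j) := by
      rw [← pow_add]
      congr 1
      omega
    have h3 : y ^ (i + j) * (y ^ (j - i))⁻¹ = y ^ (2 * i) := by
      have h4 : i + j = 2 * i + (j - i) := by omega
      rw [h4, pow_add, mul_assoc, mul_inv_cancel, mul_one]
    rw [h2, h3] at h1
    exact h1
  have hinj : Function.Injective (fun i : Fin 5 => c (y ^ (2 * (i : ℕ)))) := by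
    intro i j hij
    rcases lt_trichotomy i j with hlt | heq | hlt
    · exact absurd hij.symm (key i j hlt j.2)
    · exact heq
    · exact absurd hij (key j i hlt i.2)
  have := Fintype.card_le_of_injective _ hinj
  simpa using this

end Pool.Agent.Helper565.Sym
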